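import Pool.Agent.Helper45.AM.GoalsA
import Pool.Agent.Helper45.AM.GoalsB
import Pool.Agent.Helper15.AM.GoalsG

/-!
# Project AM (MP_cc6379_al), packet AM-B5: the function `a'`, in the form `Ge m w`.
-/

set_option autoImplicit false

open LaurentPolynomial Pool.Agent.Helper15.RA Pool.Agent.Helper15.AM Pool.Agent.Helper45.AM

noncomputable section

namespace Pool.Agent.Helper59.AM

section

variable {S W : Type} [Group W] {M : CoxeterMatrix S} (cs : CoxeterSystem M W)

theorem len3 {u g u' : W} (h : cs.length (u * g * u') = cs.length u + cs.length g + cs.length u') :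
    cs.length (u * g) = cs.length u + cs.length g ∧ cs.length (g * u') = cs.length g + cs.length u' := by
  have h1 := cs.length_mul_le u g
  have h2 := cs.length_mul_le g u'
  have h3 := cs.length_mul_le (u * g) u'
  have h4 := cs.length_mul_le u (g * u')
  rw [← mul_assoc] at h4
  constructor <;> omega

theorem XR_one (P : Set S) : XR cs P 1 := by
  intro i _
  rw [one_mul, cs.length_simple, cs.length_one]

theorem XL_one (P : Set S) : XL cs P 1 := by
  intro i _
  rw [mul_one, cs.length_simple, cs.length_one]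

end

section

variable {S W H : Type} [Group W] [Ring H] [Algebra ℤ[T;T⁻¹] H] (X : AC S W H)

/-- part (1) -/
theorem ge_mul {m : ℕ} {u w : W} (hl : X.cs.length (u * w) = X.cs.length u + X.cs.length w)
    (h : X.Ge m u ∨ X.Ge m w) : X.Ge m (u * w) := by
  rcases h with ⟨u₁, g, u₂, b, hg, hw, hlw, hm⟩ | ⟨u₁, g, u₂, b, hg, hw, hlw, hm⟩
  · have e : u * w = u₁ * g * (u₂ * w) := by rw [hw]; group
    refine ⟨u₁, g, u₂ * w, b, hg, e, ?_, hm⟩
    have h1 := X.cs.length_mul_le (u₁ * g) (u₂ * w)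
    have h2 := X.cs.length_mul_le u₁ g
    have h3 := X.cs.length_mul_le u₂ w
    rw [← e] at h1
    omega
  · have e : u * w = (u * u₁) * g * u₂ := by rw [hw]; group
    refine ⟨u * u₁, g, u₂, b, hg, e, ?_, hm⟩
    have h1 := X.cs.length_mul_le (u * u₁ * g) u₂
    have h2 := X.cs.length_mul_le (u * u₁) g
    have h3 := X.cs.length_mul_le u u₁
    rw [← e] at h1
    omega

theorem ge_mono {m m' : ℕ} {w : W} (hm : m' ≤ m) (h : X.Ge m w) : X.Ge m' w := by
  obtain ⟨u, g, u', b, hg, hw, hl, h1⟩ := h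
  exact ⟨u, g, u', b, hg, hw, hl, hm.trans h1⟩

theorem ge_self {b : Bool} {w : W} (hw : w ∈ par X.cs (X.F b)) {m : ℕ} (hm : m ≤ X.α w) : X.Ge m w :=
  ⟨1, w, 1, b, hw, by group, by simp, hm⟩

theorem ge_right {b : Bool} {x g : W} (hg : g ∈ par X.cs (X.F b)) {m : ℕ} (hm : m ≤ X.α g)
    (hl : X.cs.length (x * g) = X.cs.length x + X.cs.length g) : X.Ge m (x * g) :=
  ge_mul X hl (Or.inr (ge_self X hg hm))

theorem ge_left {b : Bool} {g y : W} (hg : g ∈ par X.cs (X.F b)) {m : ℕ} (hm : m ≤ X.α g)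
    (hl : X.cs.length (g * y) = X.cs.length g + X.cs.length y) : X.Ge m (g * y) :=
  ge_mul X hl (Or.inl (ge_self X hg hm))

end

/-- PACKET AM-B5. -/
theorem h_b_5 : G_PA → G_PB → G_PC → A_P → B_1 → B_2 → B_5 := by
  intro hGA hGB hGC hAP hB1 _hB2 S W H _ _ _ X
  obtain ⟨b1, b2, b3, b4, b5, b6, b7, b8, b9, b10, b11, b12, b13⟩ := hB1 S W H X
  -- inverses, one direction
  have hinv : ∀ (m : ℕ) (w : W), X.Ge m w → X.Ge m w⁻¹ := by
    rintro m w ⟨u, g, u', b, hg, hw, hl, hm⟩
    have hA := (hAP S W H X.toBase (X.F b) X.α (X.pg b)).2.2.2.1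
    refine ⟨u'⁻¹, g⁻¹, u⁻¹, b, inv_mem hg, ?_, ?_, ?_⟩
    · rw [hw]; group
    · rw [X.cs.length_inv, X.cs.length_inv, X.cs.length_inv, X.cs.length_inv, hl]
      ring
    · rw [hA g hg]; exact hm
  -- `α` grows along reduced products in `W_b`
  have hα : ∀ (b : Bool) (u g u' : W), u ∈ par X.cs (X.F b) → g ∈ par X.cs (X.F b) → u' ∈ par X.cs (X.F b) →
      X.cs.length (u * g * u') = X.cs.length u + X.cs.length g + X.cs.length u' →
      X.α g ≤ X.α (u * g * u') := by
    intro b u g u' hu hg hu' hl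
    have hA := (hAP S W H X.toBase (X.F b) X.α (X.pg b)).2.2.2.2.2
    obtain ⟨l1, l2⟩ := len3 X.cs hl
    have h1 := (hA u hu g hg l1).2
    have h2 := (hA (u * g) (mul_mem hu hg) u' hu' (by rw [l1]; exact hl)).1
    exact h1.trans h2
  refine ⟨fun m u w hl h => ge_mul X hl h, ?_, ?_, ?_, ?_, ?_, ?_, ?_⟩
  · -- (2)
    intro b w hw m
    constructor
    · rintro ⟨u, g, u', c, hg, hwe, hl, hm⟩
      obtain ⟨l1, l2⟩ := len3 X.cs (hwe ▸ hl)
      have hB := ((hGB S W X.M X.cs).2 (X.F b)).2.2.2.2.1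
      have e1 : u * (g * u') = w := by rw [hwe]; group
      obtain ⟨hu, hgu⟩ := hB u (g * u') (by rw [e1, l2]; omega) (by rw [e1]; exact hw)
      obtain ⟨hg', hu'⟩ := hB g u' l2 hgu
      have := hα b u g u' hu hg' hu' (hwe ▸ hl)
      rw [hwe]
      exact hm.trans this
    · intro hm
      exact ge_self X hw hm
  · -- (3)
    rintro m w ⟨u, g, u', b, hg, hwe, hl, hm⟩
    obtain ⟨x, u₁, hu₁, hx, hxu⟩ := (hGA S W X.M X.cs (X.F b)).2.1 u
    obtain ⟨u₂, hu₂, y, hy, hyu⟩ := (hGC S W X.M X.cs (X.F b)).2.2.2.1 u'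
    have lx := (hGA S W X.M X.cs (X.F b)).2.2 x hx u₁ hu₁
    have ly := (hGC S W X.M X.cs (X.F b)).2.2.2.2.1 y hy u₂ hu₂
    set g' := u₁ * g * u₂ with hg'
    have hg'm : g' ∈ par X.cs (X.F b) := mul_mem (mul_mem hu₁ hg) hu₂
    have ew : w = x * g' * y := by rw [hwe, hxu, hyu, hg']; group
    have lg' : X.cs.length g' = X.cs.length u₁ + X.cs.length g + X.cs.length u₂ ∧
        X.cs.length (x * g' * y) = X.cs.length x + X.cs.length g' + X.cs.length y := by
      have h1 := X.cs.length_mul_le (u₁ * g) u₂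
      have h2 := X.cs.length_mul_le u₁ g
      have h3 := X.cs.length_mul_le (x * g') y
      have h4 := X.cs.length_mul_le x g'
      rw [← hg'] at h1
      rw [hxu, hyu, lx, ly] at hl
      rw [← ew] at h3 ⊢
      constructor <;> omega
    have hαg : X.α g ≤ X.α g' := hα b u₁ g u₂ hu₁ hg hu₂ lg'.1
    by_cases hK : g' ∈ par X.cs X.K
    · -- decompositions of `x` and `y`
      have hX : ∃ x' a, x = x' * a ∧ XR X.cs (X.F (!b)) x' ∧ a ∈ par X.cs (X.F (!b)) ∧
          X.cs.length x = X.cs.length x' + X.cs.length a ∧ (x ≠ 1 → a ∉ par X.cs X.K) := by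
        by_cases hx1 : x = 1
        · exact ⟨1, 1, by rw [hx1]; group, XR_one X.cs _, one_mem _, by rw [hx1]; simp, fun h => absurd hx1 h⟩
        · obtain ⟨x', a, h1, h2, h3, h4, h5, h6⟩ := b6 b x hx hx1
          exact ⟨x', a, h1, h2, h3, h6, fun _ h => h5 (b8 a (Or.inl h4) h)⟩
      have hY : ∃ c y', y = c * y' ∧ XL X.cs (X.F (!b)) y' ∧ c ∈ par X.cs (X.F (!b)) ∧
          X.cs.length y = X.cs.length c + X.cs.length y' ∧ (y ≠ 1 → c ∉ par X.cs X.K) := by
        by_cases hy1 : y = 1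
        · exact ⟨1, 1, by rw [hy1]; group, XL_one X.cs _, one_mem _, by rw [hy1]; simp, fun h => absurd hy1 h⟩
        · obtain ⟨c, y', h1, h2, h3, h4, h5, h6⟩ := b11 b y hy hy1
          exact ⟨c, y', h1, h2, h3, h6, fun _ h => h5 (b8 c (Or.inr h4) h)⟩
      by_cases hxy : x = 1 ∧ y = 1
      · left
        have e : w = g' := by rw [ew, hxy.1, hxy.2]; group
        rw [e]
        exact ⟨hK, hm.trans hαg⟩
      · right
        obtain ⟨x', a, x1, x2, x3, x4, x5⟩ := hX
        obtain ⟨c, y', y1, y2, y3, y4, y5⟩ := hY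
        have hg'b : g' ∈ par X.cs (X.F (!b)) := b1 (!b) hK
        have e : w = x' * (a * g' * c) * y' := by rw [ew, x1, y1]; group
        have l5 : X.cs.length (a * g' * c) = X.cs.length a + X.cs.length g' + X.cs.length c := by
          have h1 := X.cs.length_mul_le (a * g') c
          have h2 := X.cs.length_mul_le a g'
          have h3 := X.cs.length_mul_le (x' * (a * g' * c)) y'
          have h4 := X.cs.length_mul_le x' (a * g' * c)
          have h5 := lg'.2
          rw [← e] at h3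
          rw [← ew] at h5
          omega
        refine ⟨!b, x', a * g' * c, y', ⟨x2, mul_mem (mul_mem x3 hg'b) y3, ?_, y2⟩, e,
          (hm.trans hαg).trans (hα (!b) a g' c x3 hg'b y3 l5)⟩
        intro hc
        have hB := ((hGB S W X.M X.cs).2 X.K).2.2.2.2.1
        obtain ⟨l1, l2⟩ := len3 X.cs l5
        have ha : a ∈ par X.cs X.K ∧ g' * c ∈ par X.cs X.K :=
          hB a (g' * c) (by rw [← mul_assoc, l5, l2]; omega) (by rw [← mul_assoc]; exact hc)
        have hcc : c ∈ par X.cs X.K := by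
          have := mul_mem (inv_mem hK) ha.2
          rwa [inv_mul_cancel_left] at this
        rcases not_and_or.1 hxy with h | h
        · exact x5 h ha.1
        · exact y5 h hcc
    · right
      exact ⟨b, x, g', y, ⟨hx, hg'm, hK, hy⟩, ew, hm.trans hαg⟩
  · -- (4)
    intro w
    exact ⟨w, 1, 1, true, one_mem _, by group, by simp, Nat.zero_le _⟩
  · intro m m' w hm h
    exact ge_mono X hm h
  · obtain ⟨N₁, hN₁⟩ := (hAP S W H X.toBase (X.F true) X.α (X.pg true)).1
    obtain ⟨N₂, hN₂⟩ := (hAP S W H X.toBase (X.F false) X.α (X.pg false)).1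
    refine ⟨max N₁ N₂, ?_⟩
    rintro w ⟨u, g, u', b, hg, hwe, hl, hm⟩
    cases b
    · have := hN₂ g hg
      omega
    · have := hN₁ g hg
      omega
  · intro m w
    exact ⟨hinv m w, fun h => by simpa using hinv m w⁻¹ h⟩
  · rintro x g y (⟨b, hx, hg, hy⟩ | ⟨hx, hg, hy⟩)
    · exact ⟨ge_right X hg le_rfl ((hGA S W X.M X.cs (X.F b)).2.2 x hx g hg),
        ge_left X hg le_rfl ((hGC S W X.M X.cs (X.F b)).2.2.2.2.1 y hy g hg), ge_self X hg le_rfl⟩
    · have hg' : g ∈ par X.cs (X.F true) := b1 true hg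
      exact ⟨ge_right X hg' le_rfl ((hGA S W X.M X.cs X.K).2.2 x hx g hg),
        ge_left X hg' le_rfl ((hGC S W X.M X.cs X.K).2.2.2.2.1 y hy g hg), ge_self X hg' le_rfl⟩

end Pool.Agent.Helper59.AM
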